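import Pool.Agent.EQB.Final

set_option autoImplicit false

namespace Pool.Agent.Results.MP_8fa74e_co.EquitableBound

open Finset Filter Topology

/-- `A_i, B_i` form a 1-cross intersecting set pair system: `A_i ∩ B_i = ∅` for every `i` and
`|A_i ∩ B_j| = 1` for all `i ≠ j`. -/
def OneCross {ι α : Type} [DecidableEq α] (A B : ι → Finset α) : Prop :=
  (∀ i, A i ∩ B i = ∅) ∧ ∀ i j, i ≠ j → (A i ∩ B j).card = 1

/-- `deg A x` is the number of indices `i` with `x ∈ A i`. -/
def deg {ι α : Type} [Fintype ι] [DecidableEq α] (A : ι → Finset α) (x : α) : ℕ :=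
  (univ.filter (fun i => x ∈ A i)).card

/-- One half of equitability: for every `t`, the sum of `deg B x` over the `x ∈ A_i` with
`deg B x < t` does not depend on `i`, and the sum of `deg A x` over the `x ∈ B_j` with
`deg B x < t` does not depend on `j`. -/
def HalfEquitable {ι α : Type} [Fintype ι] [DecidableEq α] (A B : ι → Finset α) : Prop :=
  (∀ (t : ℕ) (i j : ι), ∑ x ∈ A i with deg B x < t, deg B x =
    ∑ x ∈ A j with deg B x < t, deg B x) ∧
  (∀ (t : ℕ) (i j : ι), ∑ x ∈ B i with deg B x < t, deg A x =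
    ∑ x ∈ B j with deg B x < t, deg A x)

/-- The system is equitable: `HalfEquitable` holds in both directions. -/
def Equitable {ι α : Type} [Fintype ι] [DecidableEq α] (A B : ι → Finset α) : Prop :=
  HalfEquitable A B ∧ HalfEquitable B A

/-- For every `i` and `j`, the sets `A_i` and `A_j` (and the sets `B_i` and `B_j`) contain the same
number of elements of every type `(deg A x, deg B x)`. -/
def SameTypes {ι α : Type} [Fintype ι] [DecidableEq α] (A B : ι → Finset α) : Prop :=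
  ∀ (i j : ι) (p q : ℕ),
    ({x ∈ A i | deg A x = p ∧ deg B x = q}).card = ({x ∈ A j | deg A x = p ∧ deg B x = q}).card ∧
    ({x ∈ B i | deg A x = p ∧ deg B x = q}).card = ({x ∈ B j | deg A x = p ∧ deg B x = q}).card

/-- The automorphism group of the system is transitive on the indices. -/
def IndexTransitive {ι α : Type} [DecidableEq α] (A B : ι → Finset α) : Prop :=
  ∀ i j : ι, ∃ (π : Equiv.Perm ι) (φ : Equiv.Perm α), π i = j ∧
    ∀ k, (A k).map φ.toEmbedding = A (π k) ∧ (B k).map φ.toEmbedding = B (π k)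

/-- There is an equitable `(a,b)`-restricted 1-cross intersecting system of size `m`. -/
def HasEquitable (a b m : ℕ) : Prop :=
  ∃ (ι α : Type) (_ : Fintype ι) (_ : DecidableEq α) (A B : ι → Finset α), Fintype.card ι = m ∧
    OneCross A B ∧ Equitable A B ∧ (∀ i, (A i).card ≤ a) ∧ ∀ i, (B i).card ≤ b

/-- There is an index-transitive `(a,b)`-restricted 1-cross intersecting system of size `m`. -/
def HasTransitive (a b m : ℕ) : Prop :=
  ∃ (ι α : Type) (_ : Fintype ι) (_ : DecidableEq α) (A B : ι → Finset α), Fintype.card ι = m ∧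
    OneCross A B ∧ IndexTransitive A B ∧ (∀ i, (A i).card ≤ a) ∧ ∀ i, (B i).card ≤ b

/-- the largest size of an equitable `(n,n)`-restricted system -/
noncomputable def mEq (n : ℕ) : ℕ := sSup {m | HasEquitable n n m}

/-- the largest size of an index-transitive `(n,n)`-restricted system -/
noncomputable def mTr (n : ℕ) : ℕ := sSup {m | HasTransitive n n m}

lemma equitable_of_transitive {ι α : Type} [Fintype ι] [DecidableEq α] (A B : ι → Finset α)
    (h : IndexTransitive A B) : Equitable A B :=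
  Pool.Agent.EQB.qEq_of_equit A B (Pool.Agent.EQB.f_TR ι α A B h)

lemma hasTransitive_pow (k : ℕ) : HasTransitive (2 * k) (2 * k) (5 ^ k) := by
  obtain ⟨ι, α, hι, hα, A, B, h1, h2, h3, h4, h5⟩ := Pool.Agent.EQB.f_POW k
  exact ⟨ι, α, hι, hα, A, B, h1, h2, h3, fun i => (h4 i).le, fun i => (h5 i).le⟩

lemma hasTransitive_mono (a b c d m : ℕ) (h : HasTransitive a b m) (hac : a ≤ c) (hbd : b ≤ d) :
    HasTransitive c d m := by
  obtain ⟨ι, α, hι, hα, A, B, h1, h2, h3, h4, h5⟩ := h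
  exact ⟨ι, α, hι, hα, A, B, h1, h2, h3, fun i => (h4 i).trans hac, fun i => (h5 i).trans hbd⟩

lemma hasEquitable_of_transitive (a b m : ℕ) (h : HasTransitive a b m) : HasEquitable a b m := by
  obtain ⟨ι, α, hι, hα, A, B, h1, h2, h3, h4, h5⟩ := h
  exact ⟨ι, α, hι, hα, A, B, h1, h2, equitable_of_transitive A B h3, h4, h5⟩

lemma bound {ι α : Type} [Fintype ι] [DecidableEq α] (A B : ι → Finset α) (h : OneCross A B)
    (hq : Equitable A B) (a b : ℕ) (ha : ∀ i, (A i).card ≤ a) (hb : ∀ i, (B i).card ≤ b) :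
    (Fintype.card ι : ℝ) ≤ (5 : ℝ) ^ (((a : ℝ) + b) / 4) :=
  Pool.Agent.EQB.f_bound A B h hq.1 hq.2 a b ha hb

lemma hasEquitable_le (n m : ℕ) (h : HasEquitable n n m) : (m : ℝ) ≤ (5 : ℝ) ^ ((n : ℝ) / 2) := by
  obtain ⟨ι, α, hι, hα, A, B, h1, h2, h3, h4, h5⟩ := h
  have := bound A B h2 h3 n n h4 h5
  rw [h1] at this
  have h6 : ((n : ℝ) + n) / 4 = (n : ℝ) / 2 := by ring
  rwa [h6] at this

lemma bddAbove_eq (n : ℕ) : BddAbove {m | HasEquitable n n m} :=
  ⟨⌊(5 : ℝ) ^ ((n : ℝ) / 2)⌋₊, fun _ hm => Nat.le_floor (hasEquitable_le n _ hm)⟩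

lemma bddAbove_tr (n : ℕ) : BddAbove {m | HasTransitive n n m} :=
  ⟨⌊(5 : ℝ) ^ ((n : ℝ) / 2)⌋₊, fun m hm => Nat.le_floor (hasEquitable_le n m
    (hasEquitable_of_transitive n n m hm))⟩

lemma hasTransitive_one (n : ℕ) : HasTransitive n n 1 := by
  have h := hasTransitive_pow 0
  rw [pow_zero] at h
  exact hasTransitive_mono _ _ _ _ _ h (by omega) (by omega)

lemma isGreatest_tr (n : ℕ) : IsGreatest {m | HasTransitive n n m} (mTr n) :=
  ⟨Nat.sSup_mem ⟨1, hasTransitive_one n⟩ (bddAbove_tr n), fun _ hm => le_csSup (bddAbove_tr n) hm⟩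

lemma isGreatest_eq (n : ℕ) : IsGreatest {m | HasEquitable n n m} (mEq n) :=
  ⟨Nat.sSup_mem ⟨1, hasEquitable_of_transitive _ _ _ (hasTransitive_one n)⟩ (bddAbove_eq n),
    fun _ hm => le_csSup (bddAbove_eq n) hm⟩

lemma mTr_le_mEq (n : ℕ) : mTr n ≤ mEq n :=
  (isGreatest_eq n).2 (hasEquitable_of_transitive _ _ _ (isGreatest_tr n).1)

lemma mEq_le (n : ℕ) : (mEq n : ℝ) ≤ (5 : ℝ) ^ ((n : ℝ) / 2) :=
  hasEquitable_le n _ (isGreatest_eq n).1

lemma pow_le_mTr (n : ℕ) : 5 ^ (n / 2) ≤ mTr n :=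
  (isGreatest_tr n).2 (hasTransitive_mono _ _ _ _ _ (hasTransitive_pow (n / 2))
    (Nat.mul_div_le n 2) (Nat.mul_div_le n 2))

lemma values (k : ℕ) : mTr (2 * k) = 5 ^ k ∧ mEq (2 * k) = 5 ^ k := by
  have h1 : 5 ^ k ≤ mTr (2 * k) := by
    have := pow_le_mTr (2 * k)
    rwa [Nat.mul_div_cancel_left k (by norm_num)] at this
  have h2 : mEq (2 * k) ≤ 5 ^ k := by
    have h3 := mEq_le (2 * k)
    have h4 : (((2 * k : ℕ) : ℝ)) / 2 = (k : ℝ) := by push_cast; ring
    rw [h4, Real.rpow_natCast] at h3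
    exact_mod_cast h3
  have h3 := mTr_le_mEq (2 * k)
  omega

lemma tendsto_lower : Tendsto (fun n : ℕ => (((5 : ℝ) ^ (n / 2 : ℕ)) : ℝ) ^ (1 / (n : ℝ))) atTop
    (𝓝 (Real.sqrt 5)) := by
  have h1 : ∀ n : ℕ, (((5 : ℝ) ^ (n / 2 : ℕ)) : ℝ) ^ (1 / (n : ℝ)) =
      (5 : ℝ) ^ ((((n / 2 : ℕ) : ℝ)) / (n : ℝ)) := by
    intro n
    rw [← Real.rpow_natCast, ← Real.rpow_mul (by norm_num)]
    congr 1
    ring
  simp_rw [h1]
  rw [Real.sqrt_eq_rpow]
  have h2 : Tendsto (fun n : ℕ => (((n / 2 : ℕ) : ℝ)) / (n : ℝ)) atTop (𝓝 (1 / 2)) := by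
    have h3 : Tendsto (fun n : ℕ => (1 : ℝ) / 2 - 1 / (n : ℝ)) atTop (𝓝 (1 / 2 - 0)) :=
      tendsto_const_nhds.sub tendsto_one_div_atTop_nhds_zero_nat
    rw [sub_zero] at h3
    refine tendsto_of_tendsto_of_tendsto_of_le_of_le' h3 tendsto_const_nhds ?_ ?_
    · filter_upwards [eventually_gt_atTop 0] with n hn
      have hn' : (0 : ℝ) < n := by exact_mod_cast hn
      rw [le_div_iff₀ hn', sub_mul, one_div_mul_cancel hn'.ne']
      have h4 : n ≤ 2 * (n / 2) + 2 := by omega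
      have h5 : (n : ℝ) ≤ 2 * ((n / 2 : ℕ) : ℝ) + 2 := by exact_mod_cast h4
      linarith
    · filter_upwards [eventually_gt_atTop 0] with n hn
      have hn' : (0 : ℝ) < n := by exact_mod_cast hn
      rw [div_le_iff₀ hn']
      have h4 : 2 * (n / 2) ≤ n := Nat.mul_div_le n 2
      have h5 : 2 * ((n / 2 : ℕ) : ℝ) ≤ (n : ℝ) := by exact_mod_cast h4
      linarith
  exact (Real.continuousAt_const_rpow (by norm_num)).tendsto.comp h2

lemma squeeze (f : ℕ → ℕ) (h1 : ∀ n, 5 ^ (n / 2) ≤ f n)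
    (h2 : ∀ n, (f n : ℝ) ≤ (5 : ℝ) ^ ((n : ℝ) / 2)) :
    Tendsto (fun n : ℕ => (f n : ℝ) ^ (1 / (n : ℝ))) atTop (𝓝 (Real.sqrt 5)) := by
  refine tendsto_of_tendsto_of_tendsto_of_le_of_le' tendsto_lower tendsto_const_nhds ?_ ?_
  · filter_upwards with n
    apply Real.rpow_le_rpow (by positivity)
    · exact_mod_cast h1 n
    · positivity
  · filter_upwards [eventually_gt_atTop 0] with n hn
    have hn' : (0 : ℝ) < n := by exact_mod_cast hn
    calc (f n : ℝ) ^ (1 / (n : ℝ)) ≤ ((5 : ℝ) ^ ((n : ℝ) / 2)) ^ (1 / (n : ℝ)) := by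
          apply Real.rpow_le_rpow (by positivity) (h2 n) (by positivity)
      _ = Real.sqrt 5 := by
          rw [← Real.rpow_mul (by norm_num), Real.sqrt_eq_rpow]
          congr 1
          field_simp

lemma equitable_of_sameTypes {ι α : Type} [Fintype ι] [DecidableEq α] (A B : ι → Finset α)
    (h : SameTypes A B) : Equitable A B := by
  apply Pool.Agent.EQB.qEq_of_equit A B
  refine ⟨fun i j => ?_, fun i j => ?_⟩
  · ext ⟨p, q⟩
    rw [Multiset.count_map, Multiset.count_map]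
    have h1 := (h i j p q).1
    have h2 : ∀ i, ({x ∈ A i | deg A x = p ∧ deg B x = q}).card =
        (Multiset.filter (fun x => (p, q) = Pool.Agent.EQB.typ A B x) (A i).val).card := by
      intro i
      rw [Finset.card_def, Finset.filter_val]
      congr 1
      apply Multiset.filter_congr
      intro x _
      simp only [Pool.Agent.EQB.typ, Prod.mk.injEq]
      constructor
      · rintro ⟨h3, h4⟩
        exact ⟨h3.symm, h4.symm⟩
      · rintro ⟨h3, h4⟩
        exact ⟨h3.symm, h4.symm⟩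
    rw [← h2, ← h2, h1]
  · ext ⟨p, q⟩
    rw [Multiset.count_map, Multiset.count_map]
    have h1 := (h i j p q).2
    have h2 : ∀ i, ({x ∈ B i | deg A x = p ∧ deg B x = q}).card =
        (Multiset.filter (fun x => (p, q) = Pool.Agent.EQB.typ A B x) (B i).val).card := by
      intro i
      rw [Finset.card_def, Finset.filter_val]
      congr 1
      apply Multiset.filter_congr
      intro x _
      simp only [Pool.Agent.EQB.typ, Prod.mk.injEq]
      constructor
      · rintro ⟨h3, h4⟩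
        exact ⟨h3.symm, h4.symm⟩
      · rintro ⟨h3, h4⟩
        exact ⟨h3.symm, h4.symm⟩
    rw [← h2, ← h2, h1]

/-- **Theorem.** Every equitable 1-cross intersecting system with `|A_i| ≤ a`, `|B_i| ≤ b` has size
at most `5^((a+b)/4)`. Systems in which all indices see the same types, in particular all
index-transitive systems, are equitable. The largest size of an equitable, and of an
index-transitive, `(n,n)`-restricted system exists, is at least `5^⌊n/2⌋` and at most `5^(n/2)`, so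
it is exactly `5^(n/2)` for even `n`; its `n`-th root tends to `√5`. -/
theorem result :
    (∀ (ι α : Type) [Fintype ι] [DecidableEq α] (A B : ι → Finset α), OneCross A B →
      Equitable A B → ∀ a b : ℕ, (∀ i, (A i).card ≤ a) → (∀ i, (B i).card ≤ b) →
        (Fintype.card ι : ℝ) ≤ (5 : ℝ) ^ (((a : ℝ) + b) / 4)) ∧
    (∀ (ι α : Type) [Fintype ι] [DecidableEq α] (A B : ι → Finset α), SameTypes A B →
      Equitable A B) ∧
    (∀ (ι α : Type) [Fintype ι] [DecidableEq α] (A B : ι → Finset α), IndexTransitive A B →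
      Equitable A B) ∧
    (∀ n : ℕ, IsGreatest {m | HasEquitable n n m} (mEq n) ∧
      IsGreatest {m | HasTransitive n n m} (mTr n)) ∧
    (∀ n : ℕ, 5 ^ (n / 2) ≤ mTr n ∧ mTr n ≤ mEq n ∧ (mEq n : ℝ) ≤ (5 : ℝ) ^ ((n : ℝ) / 2)) ∧
    (∀ k : ℕ, mTr (2 * k) = 5 ^ k ∧ mEq (2 * k) = 5 ^ k) ∧
    Tendsto (fun n : ℕ => (mTr n : ℝ) ^ (1 / (n : ℝ))) atTop (𝓝 (Real.sqrt 5)) ∧
    Tendsto (fun n : ℕ => (mEq n : ℝ) ^ (1 / (n : ℝ))) atTop (𝓝 (Real.sqrt 5)) :=
  ⟨fun _ _ _ _ A B h hq a b ha hb => bound A B h hq a b ha hb,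
    fun _ _ _ _ A B h => equitable_of_sameTypes A B h,
    fun _ _ _ _ A B h => equitable_of_transitive A B h,
    fun n => ⟨isGreatest_eq n, isGreatest_tr n⟩,
    fun n => ⟨pow_le_mTr n, mTr_le_mEq n, mEq_le n⟩, values,
    squeeze mTr pow_le_mTr (fun n => le_trans (by exact_mod_cast mTr_le_mEq n) (mEq_le n)),
    squeeze mEq (fun n => (pow_le_mTr n).trans (mTr_le_mEq n)) mEq_le⟩

end Pool.Agent.Results.MP_8fa74e_co.EquitableBound
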