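import Pool.Agent.GBD.Bounds

set_option autoImplicit false

namespace Pool.Agent.Results.MP_8fa74e_co.GoldenBound

open Filter Topology

/-- `A_i, B_i` form a 1-cross intersecting set pair system: `A_i ∩ B_i = ∅` for every `i` and
`|A_i ∩ B_j| = 1` for all `i ≠ j`. -/
def OneCross {ι α : Type} [DecidableEq α] (A B : ι → Finset α) : Prop :=
  (∀ i, A i ∩ B i = ∅) ∧ ∀ i j, i ≠ j → (A i ∩ B j).card = 1

/-- There is an `(a,b)`-restricted 1-cross intersecting set pair system of size `m`. -/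
def HasSystem (a b m : ℕ) : Prop :=
  ∃ A B : Fin m → Finset ℕ, OneCross A B ∧ (∀ i, (A i).card ≤ a) ∧ ∀ i, (B i).card ≤ b

/-- `m(a,b)`: the largest size of an `(a,b)`-restricted 1-cross intersecting set pair system.
`m_n` is `mMax n n`. -/
noncomputable def mMax (a b : ℕ) : ℕ := sSup {m | HasSystem a b m}

lemma hasSystem_zero (a b : ℕ) : HasSystem a b 0 :=
  ⟨fun i => i.elim0, fun i => i.elim0, ⟨fun i => i.elim0, fun i => i.elim0⟩, fun i => i.elim0,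
    fun i => i.elim0⟩

lemma hasSystem_le (a b m : ℕ) (z : ℝ) (hz : 0 < z) (hab : (a : ℝ) * z ^ 2 = b * (1 + z))
    (h : HasSystem a b m) : (m : ℝ) ≤ (1 + z) ^ a := by
  obtain ⟨A, B, hAB, hA, hB⟩ := h
  have := Pool.Agent.GBD.card_le A B hAB a b z hz hab hA hB
  rwa [Fintype.card_fin] at this

lemma root_eq (a b : ℝ) (ha : 0 < a) (hb : 0 < b) :
    a * ((b + Real.sqrt (b ^ 2 + 4 * a * b)) / (2 * a)) ^ 2 =
      b * (1 + (b + Real.sqrt (b ^ 2 + 4 * a * b)) / (2 * a)) := by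
  have hs : Real.sqrt (b ^ 2 + 4 * a * b) ^ 2 = b ^ 2 + 4 * a * b :=
    Real.sq_sqrt (by positivity)
  generalize Real.sqrt (b ^ 2 + 4 * a * b) = s at hs
  field_simp
  linarith

lemma bddAbove (a b : ℕ) (ha : 1 ≤ a) (hb : 1 ≤ b) : BddAbove {m | HasSystem a b m} := by
  have ha' : (0 : ℝ) < a := by exact_mod_cast ha
  have hb' : (0 : ℝ) < b := by exact_mod_cast hb
  set z : ℝ := (b + Real.sqrt (b ^ 2 + 4 * a * b)) / (2 * a) with hz
  have hz0 : 0 < z := by positivity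
  have hzz : (a : ℝ) * z ^ 2 = b * (1 + z) := root_eq a b ha' hb'
  refine ⟨⌊(1 + z) ^ a⌋₊, ?_⟩
  intro m hm
  exact Nat.le_floor (hasSystem_le a b m z hz0 hzz hm)

lemma isGreatest (a b : ℕ) (ha : 1 ≤ a) (hb : 1 ≤ b) :
    IsGreatest {m | HasSystem a b m} (mMax a b) :=
  ⟨Nat.sSup_mem ⟨0, hasSystem_zero a b⟩ (bddAbove a b ha hb),
    fun _ hm => le_csSup (bddAbove a b ha hb) hm⟩

/-- **Theorem.** Every finite 1-cross intersecting set pair system satisfies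
`∑ φ^(-(|A_i| + |B_i|)) ≤ 1` (`φ` the golden ratio), and, for every `z > 0`,
`∑ exp(-α(z)|A_i| - β(z)|B_i|) ≤ 1` with `α(z) = log(1+z) - z/(z+2)`, `β(z) = (1+z)/(z(z+2))`.
Hence `m(a,b) ≤ ((2a + b + √(b²+4ab))/(2a))^a`, in particular `m_n ≤ φ^(2n) = ((3+√5)/2)^n` for all
`n ≥ 1`, and `λ = lim m_n^{1/n} ≤ (3+√5)/2 < 2.6181`. -/
theorem result :
    (∀ (ι α : Type) [Fintype ι] [DecidableEq α] (A B : ι → Finset α), OneCross A B →
      ∑ i, (Real.goldenRatio ^ ((A i).card + (B i).card))⁻¹ ≤ 1) ∧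
    (∀ (ι α : Type) [Fintype ι] [DecidableEq α] (A B : ι → Finset α), OneCross A B →
      ∀ z : ℝ, 0 < z →
        ∑ i, Real.exp (-((Real.log (1 + z) - z / (z + 2)) * (A i).card +
          (1 + z) / (z * (z + 2)) * (B i).card)) ≤ 1) ∧
    (∀ a b : ℕ, 1 ≤ a → 1 ≤ b → IsGreatest {m | HasSystem a b m} (mMax a b) ∧
      (mMax a b : ℝ) ≤ ((2 * a + b + Real.sqrt ((b : ℝ) ^ 2 + 4 * a * b)) / (2 * a)) ^ a) ∧
    (∀ n : ℕ, 1 ≤ n → (mMax n n : ℝ) ≤ ((3 + Real.sqrt 5) / 2) ^ n) ∧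
    (∀ L : ℝ, Tendsto (fun n : ℕ => (mMax n n : ℝ) ^ (1 / (n : ℝ))) atTop (𝓝 L) →
      L ≤ (3 + Real.sqrt 5) / 2) ∧ (3 + Real.sqrt 5) / 2 < 2.6181 := by
  classical
  have hmax : ∀ a b : ℕ, 1 ≤ a → 1 ≤ b → (mMax a b : ℝ) ≤
      ((2 * a + b + Real.sqrt ((b : ℝ) ^ 2 + 4 * a * b)) / (2 * a)) ^ a := by
    intro a b ha hb
    have ha' : (0 : ℝ) < a := by exact_mod_cast ha
    have hb' : (0 : ℝ) < b := by exact_mod_cast hb
    set z : ℝ := (b + Real.sqrt (b ^ 2 + 4 * a * b)) / (2 * a) with hz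
    have hz0 : 0 < z := by positivity
    have hzz : (a : ℝ) * z ^ 2 = b * (1 + z) := root_eq a b ha' hb'
    have h1 := hasSystem_le a b _ z hz0 hzz (isGreatest a b ha hb).1
    have h2 : 1 + z = (2 * a + b + Real.sqrt ((b : ℝ) ^ 2 + 4 * a * b)) / (2 * a) := by
      rw [hz]
      field_simp
      ring
    rwa [h2] at h1
  have hn : ∀ n : ℕ, 1 ≤ n → (mMax n n : ℝ) ≤ ((3 + Real.sqrt 5) / 2) ^ n := by
    intro n hn
    have hn' : (0 : ℝ) < n := by exact_mod_cast hn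
    have h1 := hmax n n hn hn
    have h2 : Real.sqrt ((n : ℝ) ^ 2 + 4 * n * n) = n * Real.sqrt 5 := by
      rw [show (n : ℝ) ^ 2 + 4 * n * n = n ^ 2 * 5 by ring, Real.sqrt_mul (by positivity),
        Real.sqrt_sq hn'.le]
    have h3 : (2 * (n : ℝ) + n + Real.sqrt ((n : ℝ) ^ 2 + 4 * n * n)) / (2 * n)
        = (3 + Real.sqrt 5) / 2 := by
      rw [h2]
      field_simp
      ring
    rwa [h3] at h1
  refine ⟨?_, ?_, ?_, hn, ?_, ?_⟩
  · intro ι α _ _ A B h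
    exact Pool.Agent.GBD.lym_golden A B h
  · intro ι α _ _ A B h z hz
    exact Pool.Agent.GBD.lym_z A B h z hz
  · intro a b ha hb
    exact ⟨isGreatest a b ha hb, hmax a b ha hb⟩
  · intro L hL
    apply le_of_tendsto hL
    filter_upwards [eventually_ge_atTop 1] with n hn1
    have hn' : (0 : ℝ) < n := by exact_mod_cast hn1
    have h1 := hn n hn1
    have h0 : (0 : ℝ) ≤ (3 + Real.sqrt 5) / 2 := by positivity
    calc (mMax n n : ℝ) ^ (1 / (n : ℝ)) ≤ (((3 + Real.sqrt 5) / 2) ^ n) ^ (1 / (n : ℝ)) :=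
          Real.rpow_le_rpow (Nat.cast_nonneg _) h1 (by positivity)
      _ = (3 + Real.sqrt 5) / 2 := by
          rw [one_div, Real.pow_rpow_inv_natCast h0 (by omega)]
  · have h5 : Real.sqrt 5 < 2.2362 := by
      rw [Real.sqrt_lt' (by norm_num)]
      norm_num
    norm_num at h5 ⊢
    linarith

end Pool.Agent.Results.MP_8fa74e_co.GoldenBound
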