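import Pool.Agent.LAY8.Upper
import Pool.Agent.LAY8.Arith
import Pool.Agent.LAY8.Lower
import Pool.Agent.LAY8.Near

/-!
# Layered 1-cross intersecting set pair systems: the exact maximum sizes

A 1-cross intersecting system is layered if the elements can be coloured so that for all `i ≠ j`
the elements of `A i ∩ B j` and `A j ∩ B i` have the same colour `l`, and `A i ∩ A j` or
`B i ∩ B j` has no element of the colour `l` (`Pool.Agent.LAY8.Layering`).

Upper bound: for every colour `l` the vectors `(1; a i x * b i y - a i y * b i x)` (`a i`, `b i`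
the indicators of `A i`, `B i` on the colour) are orthogonal for two indices separated in that
colour; the tensor products over all colours are pairwise orthogonal and Bessel's inequality gives
`∑ i, ∏ l, 1 / (1 + a_i^l * b_i^l) ≤ 1`. Lower bound: compositions of near factorisations of the
cyclic groups of order `1 + a * b`.
-/

set_option autoImplicit false

namespace Pool.Agent.Results.MP_8fa74e_co.LayeredExact

open Pool.Agent.LAY8

theorem list_has (L : List (ℕ × ℕ)) :
    HasLayered (L.map Prod.fst).sum (L.map Prod.snd).sum (L.map fun p => 1 + p.1 * p.2).prod := by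
  induction L with
  | nil =>
    have h := near 0 0
    simpa using h
  | cons p L ih =>
    simp only [List.map_cons, List.sum_cons, List.prod_cons]
    exact comp (near p.1 p.2) ih

theorem result :
    (∀ a b m : ℕ, HasLayered a b m ↔ ∃ L : List (ℕ × ℕ), (L.map Prod.fst).sum ≤ a ∧
      (L.map Prod.snd).sum ≤ b ∧ m ≤ (L.map fun p => 1 + p.1 * p.2).prod) ∧
    (∀ k : ℕ, IsGreatest {m | HasLayered (2 * k) (2 * k) m} (5 ^ k)) ∧
    (∀ k : ℕ, IsGreatest {m | HasLayered (2 * k + 1) (2 * k + 1) m} (2 * 5 ^ k)) := by
  refine ⟨fun a b m => ⟨upper, ?_⟩, fun k => ⟨?_, ?_⟩, fun k => ⟨?_, ?_⟩⟩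
  · rintro ⟨L, h1, h2, h3⟩
    exact (list_has L).mono h1 h2 h3
  · have h := list_has (List.replicate k (2, 2))
    refine h.mono ?_ ?_ ?_
    · simp [mul_comm]
    · simp [mul_comm]
    · simp
  · intro m hm
    obtain ⟨L, h1, h2, h3⟩ := upper hm
    exact h3.trans (even_bound L k h1 h2)
  · have h := list_has ((1, 1) :: List.replicate k (2, 2))
    refine h.mono ?_ ?_ ?_
    · simp [mul_comm, add_comm]
    · simp [mul_comm, add_comm]
    · simp
  · intro m hm
    obtain ⟨L, h1, h2, h3⟩ := upper hm
    exact h3.trans (odd_bound L k h1 h2)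

end Pool.Agent.Results.MP_8fa74e_co.LayeredExact
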