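import Pool.Agent.P8FB.Off

set_option autoImplicit false

namespace Pool.Agent.Results.MP_8fa74e_co.OffDiagonal

open Filter Topology

/-- `A_i, B_i` form a 1-cross intersecting set pair system: `A_i ∩ B_i = ∅` for every `i` and
`|A_i ∩ B_j| = 1` for all `i ≠ j`. -/
def OneCross {ι α : Type} [DecidableEq α] (A B : ι → Finset α) : Prop :=
  (∀ i, A i ∩ B i = ∅) ∧ ∀ i j, i ≠ j → (A i ∩ B j).card = 1

/-- There is a 1-cross intersecting set pair system of size `m` with `|A_i| ≤ a` and `|B_i| ≤ b`. -/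
def HasSystem (a b m : ℕ) : Prop :=
  ∃ A B : Fin m → Finset ℕ, OneCross A B ∧ (∀ i, (A i).card ≤ a) ∧ ∀ i, (B i).card ≤ b

/-- `m(a,b)`: the largest size of a 1-cross intersecting set pair system with `|A_i| ≤ a` and
`|B_i| ≤ b`. -/
noncomputable def mMax (a b : ℕ) : ℕ := sSup {m | HasSystem a b m}

lemma hasSystem_le (a b m : ℕ) (h : HasSystem a b m) :
    (m : ℝ) ≤ Real.exp (Real.sqrt ((a : ℝ) * b)) := by
  obtain ⟨A, B, hAB, hA, hB⟩ := h
  have := Pool.Agent.P8FA.card_le A B hAB a b hA hB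
  rw [Fintype.card_fin] at this
  exact this

lemma bddAbove (a b : ℕ) : BddAbove {m | HasSystem a b m} := by
  refine ⟨⌊Real.exp (Real.sqrt ((a : ℝ) * b))⌋₊, ?_⟩
  intro m hm
  exact Nat.le_floor (hasSystem_le a b m hm)

lemma hasSystem_zero (a b : ℕ) : HasSystem a b 0 :=
  ⟨fun i => i.elim0, fun i => i.elim0, ⟨fun i => i.elim0, fun i => i.elim0⟩, fun i => i.elim0,
    fun i => i.elim0⟩

lemma isGreatest (a b : ℕ) : IsGreatest {m | HasSystem a b m} (mMax a b) :=
  ⟨Nat.sSup_mem ⟨0, hasSystem_zero a b⟩ (bddAbove a b), fun _ hm => le_csSup (bddAbove a b) hm⟩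

/-- systems on an arbitrary encodable ground set can be moved to the natural numbers -/
lemma hasSystem_of {ι α : Type} [Fintype ι] [DecidableEq α] [Encodable α]
    (A B : ι → Finset α) (h : OneCross A B) (a b : ℕ) (hA : ∀ i, (A i).card ≤ a)
    (hB : ∀ i, (B i).card ≤ b) : HasSystem a b (Fintype.card ι) := by
  let e : Fin (Fintype.card ι) ≃ ι := (Fintype.equivFin ι).symm
  let f : α ↪ ℕ := ⟨Encodable.encode, Encodable.encode_injective⟩
  refine ⟨fun i => (A (e i)).map f, fun i => (B (e i)).map f, ⟨?_, ?_⟩, ?_, ?_⟩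
  · intro i
    rw [← Finset.map_inter, h.1, Finset.map_empty]
  · intro i j hij
    rw [← Finset.map_inter, Finset.card_map]
    exact h.2 _ _ (fun h0 => hij (e.injective h0))
  · intro i
    rw [Finset.card_map]
    exact hA _
  · intro i
    rw [Finset.card_map]
    exact hB _

/-- the star: `A_i = {i}`, `B_i` = the other points -/
lemma star (k : ℕ) : HasSystem 1 k (k + 1) := by
  have h := hasSystem_of (ι := Fin (k + 1)) (α := Fin (k + 1)) (fun i => {i})
    (fun i => Finset.univ.erase i) ⟨?_, ?_⟩ 1 k ?_ ?_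
  · rwa [Fintype.card_fin] at h
  · intro i
    simp
  · intro i j hij
    have : ({i} : Finset (Fin (k + 1))) ∩ Finset.univ.erase j = {i} := by
      ext x
      simp only [Finset.mem_inter, Finset.mem_singleton, Finset.mem_erase, Finset.mem_univ, and_true]
      constructor
      · exact fun hx => hx.1
      · rintro rfl
        exact ⟨rfl, hij⟩
    rw [this, Finset.card_singleton]
  · intro i
    simp
  · intro i
    rw [Finset.card_erase_of_mem (Finset.mem_univ i), Finset.card_univ, Fintype.card_fin]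
    simp

/-- composition of systems -/
lemma prod (a₁ b₁ m₁ a₂ b₂ m₂ : ℕ) (h₁ : HasSystem a₁ b₁ m₁) (h₂ : HasSystem a₂ b₂ m₂) :
    HasSystem (a₁ + a₂) (b₁ + b₂) (m₁ * m₂) := by
  classical
  obtain ⟨A₁, B₁, hAB₁, hA₁, hB₁⟩ := h₁
  obtain ⟨A₂, B₂, hAB₂, hA₂, hB₂⟩ := h₂
  let f : ℕ ↪ ℕ ⊕ (Fin m₁ × ℕ) := ⟨Sum.inl, Sum.inl_injective⟩
  let g : Fin m₁ → (ℕ ↪ ℕ ⊕ (Fin m₁ × ℕ)) := fun i =>
    ⟨fun x => Sum.inr (i, x), fun x y hxy => by simpa using hxy⟩
  let A : Fin m₁ × Fin m₂ → Finset (ℕ ⊕ (Fin m₁ × ℕ)) := fun p =>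
    (A₁ p.1).map f ∪ (A₂ p.2).map (g p.1)
  let B : Fin m₁ × Fin m₂ → Finset (ℕ ⊕ (Fin m₁ × ℕ)) := fun p =>
    (B₁ p.1).map f ∪ (B₂ p.2).map (g p.1)
  have hf : ∀ x, f x = Sum.inl x := fun _ => rfl
  have hg : ∀ i x, g i x = Sum.inr (i, x) := fun _ _ => rfl
  have hAl : ∀ p x, (Sum.inl x : ℕ ⊕ (Fin m₁ × ℕ)) ∈ A p ↔ x ∈ A₁ p.1 := by
    intro p x
    simp [A, hf, hg]
  have hBl : ∀ p x, (Sum.inl x : ℕ ⊕ (Fin m₁ × ℕ)) ∈ B p ↔ x ∈ B₁ p.1 := by
    intro p x
    simp [B, hf, hg]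
  have hAr : ∀ p i x, (Sum.inr (i, x) : ℕ ⊕ (Fin m₁ × ℕ)) ∈ A p ↔ p.1 = i ∧ x ∈ A₂ p.2 := by
    intro p i x
    simp [A, hf, hg, and_comm]
  have hBr : ∀ p i x, (Sum.inr (i, x) : ℕ ⊕ (Fin m₁ × ℕ)) ∈ B p ↔ p.1 = i ∧ x ∈ B₂ p.2 := by
    intro p i x
    simp [B, hf, hg, and_comm]
  -- intersection formula
  have hint : ∀ p q : Fin m₁ × Fin m₂, A p ∩ B q
      = (A₁ p.1 ∩ B₁ q.1).map f ∪ (if p.1 = q.1 then (A₂ p.2 ∩ B₂ q.2).map (g p.1) else ∅) := by
    intro p q
    ext x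
    rw [Finset.mem_inter]
    rcases x with x | ⟨i, x⟩
    · rw [hAl, hBl]
      by_cases hpq : p.1 = q.1
      · rw [if_pos hpq]
        simp [hf, hg]
      · rw [if_neg hpq]
        simp [hf]
    · rw [hAr, hBr]
      by_cases hpq : p.1 = q.1
      · rw [if_pos hpq]
        simp only [hf, hg, Finset.mem_union, Finset.mem_map, Finset.mem_inter,
          reduceCtorEq, and_false, exists_false, false_or, Sum.inr.injEq, Prod.mk.injEq]
        constructor
        · rintro ⟨⟨hi, hy⟩, ⟨_, hz⟩⟩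
          exact ⟨x, ⟨hy, hz⟩, hi, rfl⟩
        · rintro ⟨y, ⟨hy, hz⟩, hi, hyx⟩
          rw [← hyx]
          exact ⟨⟨hi, hy⟩, ⟨hpq ▸ hi, hz⟩⟩
      · rw [if_neg hpq]
        simp only [hf, Finset.union_empty, Finset.mem_map, reduceCtorEq,
          and_false, exists_false, iff_false]
        rintro ⟨⟨hi, _⟩, ⟨hi', _⟩⟩
        exact hpq (hi.trans hi'.symm)
  have h := hasSystem_of A B ⟨?_, ?_⟩ (a₁ + a₂) (b₁ + b₂) ?_ ?_
  · simpa using h
  · intro p
    rw [hint, hAB₁.1, if_pos rfl, hAB₂.1]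
    simp
  · intro p q hpq
    rw [hint]
    by_cases h0 : p.1 = q.1
    · have h2 : p.2 ≠ q.2 := fun h2 => hpq (Prod.ext h0 h2)
      rw [if_pos h0, h0, hAB₁.1]
      simp only [Finset.map_empty, Finset.empty_union, Finset.card_map]
      exact hAB₂.2 _ _ h2
    · rw [if_neg h0, Finset.union_empty, Finset.card_map]
      exact hAB₁.2 _ _ h0
  · intro p
    refine (Finset.card_union_le _ _).trans ?_
    rw [Finset.card_map, Finset.card_map]
    exact add_le_add (hA₁ _) (hA₂ _)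
  · intro p
    refine (Finset.card_union_le _ _).trans ?_
    rw [Finset.card_map, Finset.card_map]
    exact add_le_add (hB₁ _) (hB₂ _)

lemma one_system (b : ℕ) : HasSystem 0 b 1 :=
  ⟨fun _ => ∅, fun _ => ∅, ⟨fun _ => by simp, fun i j hij => absurd (Subsingleton.elim i j) hij⟩,
    fun _ => by simp, fun _ => by simp⟩

/-- `a` stars composed -/
lemma stars (k a : ℕ) : HasSystem a (a * k) ((k + 1) ^ a) := by
  induction a with
  | zero => simpa using one_system 0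
  | succ a ih =>
    have h := prod _ _ _ _ _ _ ih (star k)
    rw [show a * k + k = (a + 1) * k by ring, ← pow_succ] at h
    exact h

lemma lower (a b : ℕ) (ha : 0 < a) : ((b : ℝ) / a) ^ a ≤ mMax a b := by
  have h1 := stars (b / a) a
  have h2 : HasSystem a b ((b / a + 1) ^ a) := by
    obtain ⟨A, B, hAB, hA, hB⟩ := h1
    exact ⟨A, B, hAB, hA, fun i => (hB i).trans (Nat.mul_div_le b a)⟩
  have h3 : (((b / a + 1) ^ a : ℕ) : ℝ) ≤ mMax a b := by exact_mod_cast (isGreatest a b).2 h2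
  refine le_trans ?_ h3
  push_cast
  have ha' : (0 : ℝ) < a := by exact_mod_cast ha
  apply pow_le_pow_left₀ (by positivity)
  rw [div_le_iff₀ ha']
  have h4 : b < (b / a + 1) * a := by
    have := Nat.lt_div_mul_add ha (a := b)
    nlinarith
  have h5 : (b : ℝ) < ((b / a : ℕ) + 1) * a := by exact_mod_cast h4
  exact h5.le

lemma upper (a b : ℕ) (ha : 0 < a) (hab : a < b) :
    (mMax a b : ℝ) ≤ ((b : ℝ) / a) ^ ((a : ℝ) * b / (b - a)) := by
  obtain ⟨A, B, hAB, hA, hB⟩ := (isGreatest a b).1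
  have := Pool.Agent.P8FB.card_le_off A B hAB a b ha hab hA hB
  rw [Fintype.card_fin] at this
  exact this

lemma tendsto_aux (a : ℕ) (ha : 0 < a) :
    Tendsto (fun b : ℕ => (mMax a b : ℝ) / ((b : ℝ) / a) ^ a) atTop (𝓝 1) := by
  have ha' : (0 : ℝ) < a := by exact_mod_cast ha
  -- upper envelope
  have h1 : Tendsto (fun x : ℝ => Real.exp ((a : ℝ) ^ 2 * (Real.log x ^ 1 / (1 * x + -a)
      - Real.log a * (Real.log x ^ 0 / (1 * x + -a))))) atTop (𝓝 1) := by
    have e1 := Real.tendsto_pow_log_div_mul_add_atTop 1 (-(a : ℝ)) 1 one_ne_zero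
    have e2 := Real.tendsto_pow_log_div_mul_add_atTop 1 (-(a : ℝ)) 0 one_ne_zero
    have e3 := (e1.sub (e2.const_mul (Real.log a))).const_mul ((a : ℝ) ^ 2)
    have e4 := (Real.continuous_exp.tendsto _).comp e3
    have e5 : Real.exp ((a : ℝ) ^ 2 * (0 - Real.log a * 0)) = 1 := by simp
    rw [e5] at e4
    exact e4
  have h2 := h1.comp tendsto_natCast_atTop_atTop
  refine tendsto_of_tendsto_of_tendsto_of_le_of_le' tendsto_const_nhds h2 ?_ ?_
  · filter_upwards [eventually_gt_atTop a] with b hb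
    have hb' : (0 : ℝ) < b := by exact_mod_cast (lt_of_le_of_lt (Nat.zero_le a) hb)
    rw [le_div_iff₀ (by positivity), one_mul]
    exact lower a b ha
  · filter_upwards [eventually_gt_atTop a] with b hb
    have hab : (a : ℝ) < b := by exact_mod_cast hb
    have hb' : (0 : ℝ) < b := ha'.trans hab
    have hd : (b : ℝ) - a ≠ 0 := by linarith
    have hd' : (b : ℝ) + -a ≠ 0 := by
      intro h0
      exact hd (by linarith)
    rw [div_le_iff₀ (by positivity)]
    refine (upper a b ha hb).trans (le_of_eq ?_)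
    have hr : 0 < (b : ℝ) / a := div_pos hb' ha'
    rw [Real.rpow_def_of_pos hr, ← Real.rpow_natCast ((b : ℝ) / a) a, Real.rpow_def_of_pos hr,
      Function.comp_apply, ← Real.exp_add]
    congr 1
    rw [Real.log_div hb'.ne' ha'.ne']
    simp only [pow_one, pow_zero, one_mul]
    field_simp
    ring

/-- **Theorem.** Let `m(a,b)` be the largest size of a 1-cross intersecting set pair system with
`|A_i| ≤ a` and `|B_i| ≤ b`. For `1 ≤ a < b` one has
`(b/a)^a ≤ m(a,b) ≤ (b/a)^(ab/(b-a)) = (b/a)^(a + a²/(b-a))`. Consequently, for every fixed `a ≥ 1`,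
`m(a,b) = (1+o(1)) (b/a)^a` as `b → ∞`. -/
theorem result :
    (∀ a b : ℕ, IsGreatest {m | HasSystem a b m} (mMax a b)) ∧
    (∀ a b : ℕ, 0 < a → a < b →
      ((b : ℝ) / a) ^ a ≤ mMax a b ∧ (mMax a b : ℝ) ≤ ((b : ℝ) / a) ^ ((a : ℝ) * b / (b - a))) ∧
    (∀ a : ℕ, 0 < a →
      Tendsto (fun b : ℕ => (mMax a b : ℝ) / ((b : ℝ) / a) ^ a) atTop (𝓝 1)) :=
  ⟨isGreatest, fun a b ha hab => ⟨lower a b ha, upper a b ha hab⟩, tendsto_aux⟩

end Pool.Agent.Results.MP_8fa74e_co.OffDiagonal
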